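import Pool.Agent.helper84.WZ.SpecA

/-!
# Module ACT: active periods
-/

set_option autoImplicit false

namespace WZ

open Filter

/-- There are finitely many vectors with bounded entries and bounded support. -/
theorem ACT_fin (B M : ℕ) :
    {π : ℕ → ℕ | (∀ q, π q ≤ B) ∧ ∀ q, M ≤ q → π q = 0}.Finite := by
  have h : (Set.pi Set.univ (fun _ : Fin M => Set.Iic B)).Finite :=
    Set.Finite.pi (fun _ => Set.finite_Iic B)
  refine Set.Finite.of_finite_image
    (f := fun (π : ℕ → ℕ) (i : Fin M) => π i) (h.subset ?_) ?_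
  · rintro _ ⟨π, hπ, rfl⟩
    intro i _
    exact hπ.1 i
  · intro π hπ ρ hρ hEq
    funext q
    by_cases hq : q < M
    · exact congrFun hEq ⟨q, hq⟩
    · rw [hπ.2 q (by omega), hρ.2 q (by omega)]

/-- Elements of the closure are finite sums over a finite set containing the generators. -/
theorem ACT_sum (V : Finset (ℕ → ℕ)) (Ps : Set (ℕ → ℕ)) (hV : ∀ π ∈ Ps, π ∈ V) (x : ℕ → ℕ)
    (hx : x ∈ AddSubmonoid.closure Ps) :
    ∃ nn : (ℕ → ℕ) → ℕ, (∀ π, π ∉ Ps → nn π = 0) ∧ x = ∑ π ∈ V, nn π • π := by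
  classical
  induction hx using AddSubmonoid.closure_induction with
  | mem π hπ =>
    refine ⟨fun ρ => if ρ = π then 1 else 0, ?_, ?_⟩
    · intro ρ hρ
      have : ρ ≠ π := fun h => hρ (h ▸ hπ)
      simp [this]
    · rw [Finset.sum_eq_single_of_mem π (hV π hπ)]
      · simp
      · intro ρ _ hρ
        simp [hρ]
  | zero =>
    exact ⟨fun _ => 0, fun _ _ => rfl, by simp⟩
  | add x y _ _ hx hy =>
    obtain ⟨n₁, h₁, e₁⟩ := hx
    obtain ⟨n₂, h₂, e₂⟩ := hy
    refine ⟨fun π => n₁ π + n₂ π, ?_, ?_⟩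
    · intro π hπ
      simp [h₁ π hπ, h₂ π hπ]
    · rw [e₁, e₂, ← Finset.sum_add_distrib]
      exact Finset.sum_congr rfl (fun π _ => (add_smul _ _ _).symm)

theorem ACT : ACT_stmt := by
  classical
  intro B B₁ M T
  let V : Finset (ℕ → ℕ) := (ACT_fin B M).toFinset
  refine ⟨B₁ + V.card * (T * B), V.card, ?_⟩
  intro e a Ps ha hPs hx
  obtain ⟨x, hx, rfl⟩ := hx
  have hV : ∀ π ∈ Ps, π ∈ V := by
    intro π hπ
    exact (ACT_fin B M).mem_toFinset.2 (hPs π hπ)
  obtain ⟨nn, h0, hsum⟩ := ACT_sum V Ps hV x hx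
  let P : (ℕ → ℕ) → Prop := fun π => π ∈ Ps ∧ T ≤ nn π
  have hsplit : (∑ π ∈ V.filter P, nn π • π) + (∑ π ∈ V.filter (fun π => ¬ P π), nn π • π) = x := by
    rw [hsum]
    exact Finset.sum_filter_add_sum_filter_not V P (fun π => nn π • π)
  refine ⟨V.filter P, nn, a + ∑ π ∈ V.filter (fun π => ¬ P π), nn π • π, ?_, ?_, ?_, ?_, ?_, ?_⟩
  · intro π hπ
    exact (Finset.mem_filter.1 (Finset.mem_coe.1 hπ)).2.1
  · exact Finset.card_le_card (Finset.filter_subset _ _)
  · intro π hπ
    exact (Finset.mem_filter.1 hπ).2.2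
  · intro q
    rw [Pi.add_apply, Finset.sum_apply]
    refine Nat.add_le_add (ha q) ?_
    calc ∑ π ∈ V.filter (fun π => ¬ P π), (nn π • π) q
        ≤ ∑ _π ∈ V.filter (fun π => ¬ P π), T * B := by
          refine Finset.sum_le_sum ?_
          intro π hπ
          obtain ⟨hπV, hπP⟩ := Finset.mem_filter.1 hπ
          rw [Pi.smul_apply, smul_eq_mul]
          by_cases hmem : π ∈ Ps
          · have hlt : nn π ≤ T := by
              by_contra hcon
              exact hπP ⟨hmem, by omega⟩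
            exact Nat.mul_le_mul hlt ((hPs π hmem).1 q)
          · rw [h0 π hmem]
            simp
      _ = (V.filter (fun π => ¬ P π)).card * (T * B) := by
          rw [Finset.sum_const, smul_eq_mul]
      _ ≤ V.card * (T * B) :=
          Nat.mul_le_mul_right _ (Finset.card_le_card (Finset.filter_subset _ _))
  · intro q
    rw [Pi.add_apply, Pi.add_apply, ← hsplit, Pi.add_apply, Finset.sum_apply, Finset.sum_apply]
    simp only [Pi.smul_apply, smul_eq_mul]
    omega
  · refine ⟨∑ π ∈ V.filter (fun π => ¬ P π), nn π • π, ?_, rfl⟩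
    refine AddSubmonoid.sum_mem _ ?_
    intro π _
    by_cases hmem : π ∈ Ps
    · exact AddSubmonoid.nsmul_mem _ (AddSubmonoid.subset_closure hmem) _
    · rw [h0 π hmem, zero_smul]
      exact AddSubmonoid.zero_mem _

end WZ
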