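import Pool.Agent.helper84.WZ.SpecB

/-!
# Module GI: the group with identity `e`
-/

set_option autoImplicit false

namespace WZ

open Filter

/-- Left inverses in the group with identity `e`. -/
theorem GI_left (hUM : UM_stmt) (e : Ultrafilter W) (he : MinE e) (p : Ultrafilter W) (g : DZ.G)
    (hep : e * p = p) (hp : p * e = p) (hg : p ∈ UV g) :
    ∃ q, InG e q ∧ q ∈ UV g⁻¹ ∧ q * p = e := by
  obtain ⟨_, _, hmul, hpure, _, _, hsurj⟩ := hUM
  obtain ⟨w, hw⟩ := hsurj g⁻¹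
  have h1 : (pure w : Ultrafilter W) * p ∈ UV (1 : DZ.G) := by
    have := hmul _ _ _ _ (hpure w) hg
    rwa [hw, inv_mul_cancel] at this
  obtain ⟨q', hq', hmin⟩ := he.min _ h1
  have hval : e * (q' * (pure w : Ultrafilter W)) * e ∈ UV g⁻¹ := by
    have h2 := hmul _ _ _ _ hq' (hpure w)
    have h3 := hmul _ _ _ _ (hmul _ _ _ _ he.val h2) he.val
    rwa [hw, one_mul, one_mul, mul_one] at h3
  refine ⟨e * (q' * (pure w : Ultrafilter W)) * e, ⟨?_, ?_, g⁻¹, hval⟩, hval, ?_⟩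
  · rw [← mul_assoc e (e * _) e, ← mul_assoc e e, he.idem]
  · rw [mul_assoc _ e e, he.idem]
  · rw [mul_assoc _ p e, hp, ← mul_assoc] at hmin
    rw [mul_assoc _ e p, hep, mul_assoc, hmin, he.idem]

theorem GI (hUM : UM_stmt) : GI_stmt := by
  intro e he
  have hinv : ∀ p g, InG e p → p ∈ UV g →
      ∃ q, InG e q ∧ q ∈ UV g⁻¹ ∧ q * p = e ∧ p * q = e := by
    intro p g hp hg
    obtain ⟨q, hq, hqg, hqp⟩ := GI_left hUM e he p g hp.1 hp.2.1 hg
    obtain ⟨r, hr, -, hrq⟩ := GI_left hUM e he q g⁻¹ hq.1 hq.2.1 hqg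
    refine ⟨q, hq, hqg, hqp, ?_⟩
    calc p * q = e * p * q := by rw [hp.1]
      _ = r * q * p * q := by rw [hrq]
      _ = r * (q * p) * q := by rw [mul_assoc r q p]
      _ = r * e * q := by rw [hqp]
      _ = r * q := by rw [hr.2.1]
      _ = e := hrq
  have hmul := hUM.2.2.1
  have hpure := hUM.2.2.2.1
  refine ⟨hinv, ?_, ?_, ?_, ?_⟩
  · intro p hp hpp
    obtain ⟨g, hg⟩ := hp.2.2
    obtain ⟨q, -, -, hqp, -⟩ := hinv p g hp hg
    calc p = e * p := hp.1.symm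
      _ = q * p * p := by rw [hqp]
      _ = q * (p * p) := mul_assoc _ _ _
      _ = q * p := by rw [hpp]
      _ = e := hqp
  · intro p q hp hq
    obtain ⟨g, hg⟩ := hp.2.2
    obtain ⟨k, hk⟩ := hq.2.2
    refine ⟨?_, ?_, g * k, hmul _ _ _ _ hg hk⟩
    · rw [← mul_assoc, hp.1]
    · rw [mul_assoc, hq.2.1]
  · intro w
    have hval : e * (pure w : Ultrafilter W) * e ∈ UV (val 1 w) := by
      have h3 := hmul _ _ _ _ (hmul _ _ _ _ he.val (hpure w)) he.val
      rwa [one_mul, mul_one] at h3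
    refine ⟨⟨?_, ?_, _, hval⟩, hval⟩
    · rw [← mul_assoc e (e * _) e, ← mul_assoc e e, he.idem]
    · rw [mul_assoc _ e e, he.idem]
  · exact ⟨he.idem, he.idem, 1, he.val⟩

end WZ
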